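import Pool.Agent.Lib.QM82.T_HILB
import Pool.Agent.Lib.QM.QBlue
import Pool.Agent.Lib.ZP3.An

/-! A theta function of level `n` which vanishes on a complex line gives an elliptic curve of
degree `O(n)`. -/

open Complex Module Metric
open scoped Real ComplexConjugate

noncomputable section

namespace Pool.Agent.Lib.QM82

open Pool.Agent.Lib.ECM Pool.Agent.Lib.ECM.QM

def St_LIN0 : Prop :=
  ∀ τ ∈ H2, ∀ (n : ℕ) (G : V2 → ℂ) (z0 v : V2), Lev τ n G → G ≠ 0 → v ≠ 0 →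
    (∀ t : ℂ, G (z0 + t • v) = 0) →
    ∃ (P : V2 →ₗ[ℂ] V2) (N : ℕ), 0 < N ∧ N ≤ 369 * n ∧ Sy τ P (N ^ 2) ∧ P v = -(N : ℂ) • v

def St_LIN2 : Prop :=
  ∀ τ ∈ H2, ∀ (D : ℕ) (g : V2 → ℂ) (z0 v : V2), g ∈ Th2 τ D → g ≠ 0 → v ≠ 0 →
    (∀ t : ℂ, g (z0 + t • v) = 0) →
    ∃ (P : V2 →ₗ[ℂ] V2) (N : ℕ), 0 < N ∧ N ≤ 1476 * D ∧ Sy τ P (N ^ 2) ∧ P v = -(N : ℂ) • v

namespace XLIN

/-! ### lattices in the plane -/

theorem discrete (L : Submodule ℤ ℂ) (c : ℂ) (C : ℝ)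
    (h : ∀ (r : ℝ) (Z : Finset ℂ), 0 < r → (∀ s ∈ Z, ‖s‖ ≤ r ∧ s - c ∈ L) →
      (Z.card : ℝ) ≤ C * r ^ 2) : DiscreteTopology L := by
  classical
  have hf : {s : ℂ | s ∈ L ∧ ‖s‖ ≤ 1}.Finite := by
    by_contra hi
    obtain ⟨N, hN⟩ := exists_nat_gt (C * (‖c‖ + 1) ^ 2)
    obtain ⟨t, ht, hc⟩ := Set.Infinite.exists_subset_card_eq hi N
    have h1 := h (‖c‖ + 1) (t.image fun s ↦ c + s) (by positivity) fun s hs ↦ by
      obtain ⟨x, hx, rfl⟩ := Finset.mem_image.mp hs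
      exact ⟨(norm_add_le _ _).trans (by linarith [(ht hx).2]), by simpa using (ht hx).1⟩
    rw [Finset.card_image_of_injective _ (add_right_injective c), hc] at h1
    linarith
  refine discreteTopology_of_isOpen_singleton_zero ?_
  have ho : IsOpen (ball (0 : ℂ) 1 ∩ ({s : ℂ | s ∈ L ∧ ‖s‖ ≤ 1} \ {0})ᶜ) :=
    isOpen_ball.inter (hf.subset Set.sdiff_subset).isClosed.isOpen_compl
  have e : ({0} : Set L) =
      Subtype.val ⁻¹' (ball (0 : ℂ) 1 ∩ ({s : ℂ | s ∈ L ∧ ‖s‖ ≤ 1} \ {0})ᶜ) := by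
    ext x
    constructor
    · rintro rfl
      exact ⟨by simp, fun hx ↦ hx.2 rfl⟩
    · rintro ⟨h1, h2⟩
      by_contra hx
      exact h2 ⟨⟨x.2, (mem_ball_zero_iff.mp h1).le⟩, fun h0 ↦ hx (Subtype.ext h0)⟩
  rw [e]
  exact ho.preimage continuous_subtype_val

theorem exists_basis (L : Submodule ℤ ℂ) [DiscreteTopology L]
    (hsp : Submodule.span ℝ (L : Set ℂ) = ⊤) : ∃ γ ∈ L, ∃ δ ∈ L,
    (∀ s t : ℝ, (s : ℂ) * γ + t * δ = 0 → s = 0 ∧ t = 0) ∧
      ∀ l ∈ L, ∃ p q : ℤ, l = p * γ + q * δ := by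
  have : IsZLattice ℝ L := ⟨hsp⟩
  have hr : finrank ℤ L = 2 := by rw [ZLattice.rank ℝ L, Complex.finrank_real_complex]
  let b := Module.finBasisOfFinrankEq ℤ L hr
  refine ⟨b 0, (b 0).2, b 1, (b 1).2, fun s t hst ↦ ?_, fun l hl ↦ ?_⟩
  · have hi := (b.ofZLatticeBasis ℝ L).linearIndependent
    have h := Fintype.linearIndependent_iff.mp hi ![s, t] (by
      simpa [Fin.sum_univ_two] using hst)
    exact ⟨h 0, h 1⟩
  · refine ⟨b.repr ⟨l, hl⟩ 0, b.repr ⟨l, hl⟩ 1, ?_⟩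
    have h := congrArg Subtype.val (b.sum_repr ⟨l, hl⟩)
    rw [Fin.sum_univ_two] at h
    simp only [Submodule.coe_add, Submodule.coe_smul, zsmul_eq_mul] at h
    exact h.symm

theorem lat_area (L : Submodule ℤ ℂ) (c : ℂ) (C : ℝ) (hsp : Submodule.span ℝ (L : Set ℂ) = ⊤)
    (h : ∀ (r : ℝ) (Z : Finset ℂ), 0 < r → (∀ s ∈ Z, ‖s‖ ≤ r ∧ s - c ∈ L) →
      (Z.card : ℝ) ≤ C * r ^ 2) :
    ∃ a : ℝ, 0 < a ∧ 1 ≤ 9 * C * a ∧ (∀ l ∈ L, ∀ m ∈ L, ∃ k : ℤ, (conj l * m).im = k * a) ∧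
      ∀ t : ℝ, (∀ l ∈ L, (t : ℂ) * l ∈ L) → ∃ k : ℤ, t = k := by
  classical
  have := discrete L c C h
  obtain ⟨γ, hγ, δ, hδ, hi, hs⟩ := exists_basis L hsp
  have hγ0 : γ ≠ 0 := fun h0 ↦ one_ne_zero (hi 1 0 (by simp [h0])).1
  have hg : 0 < ‖γ‖ := norm_pos_iff.2 hγ0
  have hg' : (‖γ‖ : ℂ) ≠ 0 := by exact_mod_cast hg.ne'
  have hcc : conj γ * γ = (‖γ‖ : ℂ) ^ 2 := conj_mul' γ
  set a0 := (conj γ * δ).im with ha0
  set t := (conj γ * δ).re / ‖γ‖ ^ 2 with ht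
  have hδe : δ = t * γ + (a0 / ‖γ‖ ^ 2 : ℝ) * (I * γ) := by
    have e := re_add_im (conj γ * δ)
    rw [← ha0] at e
    rw [ht]
    generalize (conj γ * δ).re = x at e
    push_cast
    field_simp
    linear_combination (-δ) * hcc - γ * e
  have ha : a0 ≠ 0 := fun h0 ↦ by
    have := hi t (-1) (by
      rw [h0] at hδe
      push_cast at hδe ⊢
      linear_combination -hδe)
    norm_num at this
  have hap : 0 < |a0| := abs_pos.2 ha
  refine ⟨|a0|, hap, ?_, fun l hl m hm ↦ ?_, fun s hs' ↦ ?_⟩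
  · set B := ‖c‖ + ‖γ‖ + |a0| / ‖γ‖ with hB
    have hB0 : 0 < B := by positivity
    set K1 := ⌈B / ‖γ‖⌉₊ with hK1
    set K2 := ⌈B * ‖γ‖ / |a0|⌉₊ with hK2
    let f : ℕ × ℕ → ℂ := fun p ↦ c + (((p.1 : ℤ) - ⌊p.2 * t⌋ : ℤ) * γ + (p.2 : ℤ) * δ)
    have hf : Function.Injective f := fun p q hpq ↦ by
      have h1 := hi (((p.1 : ℤ) - ⌊p.2 * t⌋ : ℤ) - ((q.1 : ℤ) - ⌊q.2 * t⌋ : ℤ))
        ((p.2 : ℤ) - (q.2 : ℤ)) (by
          have := add_left_cancel hpq
          push_cast at this ⊢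
          linear_combination this)
      have h2 : p.2 = q.2 := by exact_mod_cast sub_eq_zero.mp h1.2
      have h3 := sub_eq_zero.mp h1.1
      rw [h2] at h3
      have h4 : ((p.1 : ℤ) - ⌊q.2 * t⌋ : ℤ) = (q.1 : ℤ) - ⌊q.2 * t⌋ := by exact_mod_cast h3
      exact Prod.ext (by omega) h2
    have h1 := h (3 * B) ((Finset.range K1 ×ˢ Finset.range K2).image f) (by positivity)
      fun s hs ↦ by
        obtain ⟨p, hp, rfl⟩ := Finset.mem_image.mp hs
        obtain ⟨hp1, hp2⟩ := Finset.mem_product.mp hp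
        have hp1' : (p.1 : ℝ) < B / ‖γ‖ := Nat.lt_ceil.mp (Finset.mem_range.mp hp1)
        have hp2' : (p.2 : ℝ) < B * ‖γ‖ / |a0| := Nat.lt_ceil.mp (Finset.mem_range.mp hp2)
        refine ⟨?_, ?_⟩
        · have e : f p = c + ((p.1 + Int.fract (p.2 * t) : ℝ) * γ +
              (p.2 * (a0 / ‖γ‖ ^ 2) : ℝ) * (I * γ)) := by
            simp only [f, Int.fract]
            rw [hδe]
            push_cast
            ring
          have n1 : ‖((p.1 + Int.fract (p.2 * t) : ℝ) : ℂ) * γ‖ ≤ B + ‖γ‖ := by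
            rw [norm_mul, norm_real, Real.norm_of_nonneg
              (add_nonneg (Nat.cast_nonneg _) (Int.fract_nonneg _))]
            rw [lt_div_iff₀ hg] at hp1'
            nlinarith [Int.fract_lt_one ((p.2 : ℝ) * t)]
          have n2 : ‖((p.2 * (a0 / ‖γ‖ ^ 2) : ℝ) : ℂ) * (I * γ)‖ ≤ B := by
            rw [norm_mul, norm_mul, norm_I, one_mul, norm_real, Real.norm_eq_abs, abs_mul,
              abs_div, Nat.abs_cast, abs_of_pos (pow_pos hg 2)]
            rw [lt_div_iff₀ hap] at hp2'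
            have e2 : (p.2 : ℝ) * (|a0| / ‖γ‖ ^ 2) * ‖γ‖ = p.2 * |a0| / ‖γ‖ := by field_simp
            rw [e2, div_le_iff₀ hg]
            exact hp2'.le
          have n3 : 0 ≤ |a0| / ‖γ‖ := by positivity
          rw [e]
          refine (norm_add_le _ _).trans ((add_le_add le_rfl
            ((norm_add_le _ _).trans (add_le_add n1 n2))).trans ?_)
          linarith
        · simp only [f, add_sub_cancel_left]
          refine L.add_mem ?_ ?_
          · simpa only [zsmul_eq_mul] using L.smul_mem ((p.1 : ℤ) - ⌊p.2 * t⌋ : ℤ) hγ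
          · simpa only [zsmul_eq_mul] using L.smul_mem (p.2 : ℤ) hδ
    rw [Finset.card_image_of_injective _ hf, Finset.card_product, Finset.card_range,
      Finset.card_range] at h1
    push_cast at h1
    have k1 : B / ‖γ‖ ≤ K1 := Nat.le_ceil _
    have k2 : B * ‖γ‖ / |a0| ≤ K2 := Nat.le_ceil _
    have k3 : B / ‖γ‖ * (B * ‖γ‖ / |a0|) ≤ K1 * K2 :=
      mul_le_mul k1 k2 (by positivity) (Nat.cast_nonneg _)
    have k4 : B / ‖γ‖ * (B * ‖γ‖ / |a0|) = B ^ 2 / |a0| := by field_simp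
    rw [k4, div_le_iff₀ hap] at k3
    have k5 : B ^ 2 * 1 ≤ B ^ 2 * (9 * C * |a0|) := by
      nlinarith [mul_le_mul_of_nonneg_right h1 hap.le]
    exact le_of_mul_le_mul_left k5 (by positivity)
  · obtain ⟨p, q, rfl⟩ := hs l hl
    obtain ⟨p', q', rfl⟩ := hs m hm
    have e : (conj ((p : ℂ) * γ + q * δ) * (p' * γ + q' * δ)).im = (p * q' - q * p' : ℤ) * a0 := by
      rw [ha0]
      simp
      ring
    rcases abs_choice a0 with h0 | h0
    · exact ⟨_, by rw [e, h0]⟩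
    · refine ⟨-(p * q' - q * p'), ?_⟩
      rw [e, h0]
      push_cast
      ring
  · obtain ⟨p, q, e⟩ := hs _ (hs' γ hγ)
    refine ⟨p, sub_eq_zero.mp (hi (s - p) (-q) ?_).1⟩
    push_cast
    linear_combination e

/-! ### zeros on a line through a maximum point -/

theorem exists_max {τ : T3} (hτ : τ ∈ H2) {n : ℕ} {G : V2 → ℂ} (hG : Lev τ n G) (h0 : G ≠ 0) :
    ∃ z1, G z1 ≠ 0 ∧ ∀ z, ‖G z‖ * Real.exp (-(π * n * qI τ z)) ≤
      ‖G z1‖ * Real.exp (-(π * n * qI τ z1)) := by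
  let X : V2 → ℝ := fun z ↦ ‖G z‖ * Real.exp (-(π * n * qI τ z))
  have hX : Continuous X := by
    have a := hG.1.continuous
    have b := XNORM.qI_cont τ
    fun_prop
  have hper : ∀ μ ν z, X (z + per τ (iv μ) (iv ν)) = X z := fun μ ν z ↦ by
    have b : ‖exp (-π * I * (n * (Qf τ (iv ν) + 2 * dot (iv ν) z)))‖ =
        Real.exp (π * n * (Qf τ (iv ν) + 2 * dot (iv ν) z).im) := by
      rw [norm_exp]
      simp [mul_assoc]
    simp only [X]
    rw [hG.2, norm_mul, b, XNORM.qI_per hτ, mul_right_comm, ← Real.exp_add, mul_comm]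
    congr 2
    ring
  obtain ⟨q, -, hq⟩ := isCompact_Icc.exists_isMaxOn
    (Set.nonempty_Icc.2 (zero_le_one (α := (Fin 2 → ℝ) × (Fin 2 → ℝ))))
    (hX.comp (XNORM.par_cont τ)).continuousOn
  have hm : ∀ z, X z ≤ X (XNORM.par τ q) := fun z ↦ by
    obtain ⟨r, hr, μ, ν, e⟩ := XNORM.cover th_HERM hτ z
    rw [e, hper]
    exact hq hr
  refine ⟨_, fun hz ↦ h0 (funext fun z ↦ ?_), hm⟩
  have h1 := hm z
  simp only [X, hz, norm_zero, zero_mul] at h1
  exact norm_eq_zero.mp (le_antisymm (nonpos_of_mul_nonpos_left h1 (Real.exp_pos _))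
    (norm_nonneg _))

theorem count {τ : T3} (hτ : τ ∈ H2) {n : ℕ} {G : V2 → ℂ} (hG : Lev τ n G) (h0 : G ≠ 0) :
    ∃ z1, ∀ (u : V2) (r : ℝ) (Z : Finset ℂ), 0 < r →
      (∀ s ∈ Z, ‖s‖ ≤ r ∧ G (z1 + s • u) = 0) → (Z.card : ℝ) ≤ 41 * n * Hn τ u * r ^ 2 := by
  obtain ⟨z1, hz, hm⟩ := exists_max hτ hG h0
  refine ⟨z1, fun u r Z hr hZ ↦ ?_⟩
  have hD : dY τ ≠ 0 := (sub_pos.2 hτ.2).ne'
  let l : ℂ := 2 * (((τ 2).im * (z1 0).im - (τ 1).im * (z1 1).im : ℝ) * u 0 +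
    ((τ 0).im * (z1 1).im - (τ 1).im * (z1 0).im : ℝ) * u 1) / (dY τ : ℝ)
  have hq : ∀ s : ℂ, qI τ (z1 + s • u) = qI τ z1 + (l * s).im + qI τ (s • u) := fun s ↦ by
    have e : l * s = (2 * (((τ 2).im * (z1 0).im - (τ 1).im * (z1 1).im : ℝ) * (s * u 0) +
        ((τ 0).im * (z1 1).im - (τ 1).im * (z1 0).im : ℝ) * (s * u 1))) / (dY τ : ℝ) := by
      simp only [l]
      ring
    rw [e, div_ofReal_im]
    simp only [qI, Pi.add_apply, Pi.smul_apply, smul_eq_mul, add_im]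
    generalize s * u 0 = x
    generalize s * u 1 = y
    simp only [mul_im, add_im, add_re, mul_re, ofReal_re, ofReal_im, re_ofNat, im_ofNat]
    ring
  let f : ℂ → ℂ := fun s ↦ G (z1 + s • u) * exp (π * n * I * (l * s))
  have hf : Differentiable ℂ f := by
    have a : Differentiable ℂ fun s : ℂ ↦ G (z1 + s • u) := hG.1.comp (by fun_prop)
    exact a.mul (by fun_prop)
  have hH := th_HERM.nonneg τ hτ u
  have hb : ∀ s : ℂ, ‖s‖ ≤ 3 * r → ‖f s‖ ≤ ‖G z1‖ * Real.exp (π * n * (9 * r ^ 2 * Hn τ u)) :=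
    fun s hs ↦ by
      have b : ‖exp (π * n * I * (l * s))‖ = Real.exp (-(π * n * (l * s).im)) := by
        rw [norm_exp]
        generalize l * s = x
        simp
      have h1 := hm (z1 + s • u)
      have h2 : qI τ (s • u) ≤ 9 * r ^ 2 * Hn τ u := by
        have a1 := th_HERM.qI_add τ (s • u)
        have a2 := th_HERM.qI_nonneg τ hτ (I • s • u)
        have a3 := th_HERM.smul τ s u
        rw [normSq_eq_norm_sq] at a3
        have a4 : ‖s‖ ^ 2 ≤ 9 * r ^ 2 := by nlinarith [norm_nonneg s]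
        nlinarith [mul_le_mul_of_nonneg_right a4 hH]
      have h3 : ‖f s‖ = ‖G (z1 + s • u)‖ * Real.exp (-(π * n * qI τ (z1 + s • u))) *
          Real.exp (π * n * (qI τ z1 + qI τ (s • u))) := by
        simp only [f]
        rw [norm_mul, b, mul_assoc ‖G (z1 + s • u)‖, ← Real.exp_add, hq]
        congr 2
        ring
      rw [h3]
      refine (mul_le_mul_of_nonneg_right h1 (Real.exp_pos _).le).trans ?_
      rw [mul_assoc, ← Real.exp_add]
      refine mul_le_mul_of_nonneg_left (Real.exp_le_exp.2 ?_) (norm_nonneg _)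
      have : 0 ≤ π * n := by positivity
      nlinarith [mul_le_mul_of_nonneg_left h2 this]
  have hs := ZP3.schwarz (f := f) (R := 3 * r) (r := r) (r1 := 0) hr.le (by linarith)
    (by linarith) (fun s _ ↦ hf.analyticAt s) hb Z 1 (fun s hs ↦ ⟨(hZ s hs).1,
      ZP3.AN.isBigO_of_zero (hf.analyticAt s) (by simp only [f, (hZ s hs).2, zero_mul])⟩)
    (s := 0) (by simp)
  have e1 : (0 + r) / (3 * r - r) = Real.exp (-Real.log 2) := by
    rw [Real.exp_neg, Real.exp_log two_pos]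
    field_simp
    ring
  have e2 : ‖f 0‖ = ‖G z1‖ * 1 := by simp [f]
  rw [e1, e2, mul_one Z.card, ← Real.exp_nat_mul, mul_assoc, ← Real.exp_add] at hs
  have h1 := Real.one_le_exp_iff.mp (le_of_mul_le_mul_left hs (norm_pos_iff.2 hz))
  have h2 := Real.log_two_gt_d9
  have h3 := Real.pi_lt_d2
  have h4 : 0 ≤ n * Hn τ u * r ^ 2 := by positivity
  have h5 : (0 : ℝ) ≤ Z.card := Nat.cast_nonneg _
  nlinarith [mul_le_mul_of_nonneg_right h3.le h4, mul_le_mul_of_nonneg_left h2.le h5]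

/-! ### the projector -/

/-- the linear form with kernel `ℂ v` -/
def ph (v z : V2) : ℂ := v 0 * z 1 - v 1 * z 0

/-- the vector which represents `ph v` -/
def uu (τ : T3) (v : V2) : V2 :=
  ![(τ 1).im * conj (v 0) - (τ 0).im * conj (v 1), (τ 2).im * conj (v 0) - (τ 1).im * conj (v 1)]

theorem ph_uu (τ : T3) (v : V2) : ph v (uu τ v) = Yf τ ![-v 1, v 0] := by
  apply Complex.ext <;> simp [ph, uu, Yf, normSq_apply] <;> ring

theorem Hn_comb {τ : T3} (hτ : τ ∈ H2) (v z : V2) (s : ℂ) (t : ℝ) :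
    Hn τ (s • uu τ v + (t : ℂ) • z) =
      normSq s * Yf τ ![-v 1, v 0] + 2 * t * (conj s * ph v z).re + t ^ 2 * Hn τ z := by
  have hD : dY τ ≠ 0 := (sub_pos.2 hτ.2).ne'
  unfold Hn
  field_simp
  simp [ph, uu, Yf, dY, normSq_apply]
  ring

theorem mem_lat (τ : T3) (v : V2) (s : ℂ)
    (h : ∀ m ∈ Lat τ, ∃ k : ℤ, (conj s * ph v m).im = k) : s • uu τ v ∈ Lat τ := by
  obtain ⟨k1, h1⟩ := h _ ⟨(1, 0), (0, 0), rfl⟩
  obtain ⟨k2, h2⟩ := h _ ⟨(0, 1), (0, 0), rfl⟩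
  obtain ⟨k3, h3⟩ := h _ ⟨(0, 0), (1, 0), rfl⟩
  obtain ⟨k4, h4⟩ := h _ ⟨(0, 0), (0, 1), rfl⟩
  refine ⟨(k3, k4), (-k1, -k2), ?_⟩
  simp [ph, per, iv] at h1 h2 h3 h4
  funext i
  fin_cases i <;> apply Complex.ext <;> simp [uu, per, iv, ← h1, ← h2, ← h3, ← h4] <;> ring

theorem ker_ph {v z : V2} (hv : v ≠ 0) (h : ph v z = 0) : ∃ t : ℂ, z = t • v := by
  unfold ph at h
  by_cases h0 : v 0 = 0
  · have h1 : v 1 ≠ 0 := fun h1 ↦ hv (funext fun i ↦ by fin_cases i <;> assumption)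
    refine ⟨z 1 / v 1, funext fun i ↦ ?_⟩
    fin_cases i
    · rw [h0, zero_mul, zero_sub, neg_eq_zero] at h
      simpa [h0] using (mul_eq_zero.mp h).resolve_left h1
    · simp [h1]
  · refine ⟨z 0 / v 0, funext fun i ↦ ?_⟩
    fin_cases i
    · simp [h0]
    · show z 1 = z 0 / v 0 * v 1
      field_simp
      linear_combination h

/-- the linear form as a linear map -/
def phL (v : V2) : V2 →ₗ[ℂ] ℂ where
  toFun := ph v
  map_add' x y := by
    simp only [ph, Pi.add_apply]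
    ring
  map_smul' c x := by
    simp only [ph, Pi.smul_apply, smul_eq_mul, RingHom.id_apply]
    ring

end XLIN

open XLIN in
theorem st_LIN0 : St_LIN0 := by
  intro τ hτ n G z0 v hG h0 hv hz
  set κ := Yf τ ![-v 1, v 0] with hκ
  have hκ0 : 0 < κ := th_HERM.Yf_pos τ hτ _ fun h ↦ hv (funext fun i ↦ by
    fin_cases i
    · exact congrFun h 1
    · exact neg_eq_zero.mp (congrFun h 0))
  have hκ' : (κ : ℂ) ≠ 0 := by exact_mod_cast hκ0.ne'
  have hu : phL v (uu τ v) = κ := ph_uu τ v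
  have hvv : phL v v = 0 := by
    show v 0 * v 1 - v 1 * v 0 = 0
    ring
  let L : Submodule ℤ ℂ :=
    { carrier := {s | ∃ l ∈ Lat τ, phL v l = s}
      add_mem' := by
        rintro _ _ ⟨l, hl, rfl⟩ ⟨m, hm, rfl⟩
        exact ⟨l + m, th_BAS.lat_add τ l hl m hm, map_add _ _ _⟩
      zero_mem' := ⟨0, th_BAS.lat_zero τ, map_zero _⟩
      smul_mem' := by
        rintro k _ ⟨l, hl, rfl⟩
        exact ⟨(k : ℂ) • l, th_BAS.lat_smul τ k l hl, by simp⟩ }
  have hsp : Submodule.span ℝ (L : Set ℂ) = ⊤ := by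
    refine eq_top_iff.2 fun s _ ↦ ?_
    obtain ⟨m, m', hr, e⟩ := th_HERM.per_surj τ hτ ((s / κ) • uu τ v)
    have e1 : s = phL v (per τ m m') := by
      rw [← e, map_smul, hu, smul_eq_mul, div_mul_cancel₀ _ hκ']
    have f : ∀ x : ℂ, x.im = 0 → ((x.re : ℝ) : ℂ) = x := fun x hx ↦ by
      apply Complex.ext <;> simp [hx]
    have e2 : s = (m 0).re • phL v (per τ (iv (1, 0)) (iv (0, 0))) +
        (m 1).re • phL v (per τ (iv (0, 1)) (iv (0, 0))) +
        (m' 0).re • phL v (per τ (iv (0, 0)) (iv (1, 0))) +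
        (m' 1).re • phL v (per τ (iv (0, 0)) (iv (0, 1))) := by
      rw [e1]
      simp only [real_smul, f _ (hr _).1, f _ (hr _).2]
      simp [phL, ph, per, iv]
      ring
    rw [e2]
    refine Submodule.add_mem _ (Submodule.add_mem _ (Submodule.add_mem _ ?_ ?_) ?_) ?_ <;>
      exact Submodule.smul_mem _ _ (Submodule.subset_span ⟨_, ⟨_, _, rfl⟩, rfl⟩)
  obtain ⟨z1, hc⟩ := count hτ hG h0
  have hHu : Hn τ ((κ : ℂ)⁻¹ • uu τ v) = κ⁻¹ := by
    have := Hn_comb hτ v 0 (κ : ℂ)⁻¹ 0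
    simp only [ofReal_zero, zero_smul, add_zero, mul_zero, zero_mul, normSq_inv, normSq_ofReal,
      ne_eq, OfNat.ofNat_ne_zero, not_false_eq_true, zero_pow] at this
    rw [this, ← hκ]
    field_simp
  obtain ⟨a, ha, h1, h2, h3⟩ := lat_area L (phL v (z0 - z1)) (41 * n * κ⁻¹) hsp
    fun r Z hr hZ ↦ by
      rw [← hHu]
      refine hc _ r Z hr fun s hs ↦ ⟨(hZ s hs).1, ?_⟩
      obtain ⟨_, ⟨μ, ν, rfl⟩, hl⟩ := (hZ s hs).2
      obtain ⟨t, ht⟩ := ker_ph (z := z1 + s • (κ : ℂ)⁻¹ • uu τ v - z0 - per τ (iv μ) (iv ν)) hv (by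
        show phL v _ = 0
        rw [map_sub] at hl
        rw [map_sub, map_sub, map_add, map_smul, map_smul, hu, hl]
        simp only [smul_eq_mul]
        field_simp
        ring)
      have e : z1 + s • (κ : ℂ)⁻¹ • uu τ v = z0 + t • v + per τ (iv μ) (iv ν) := by
        rw [← ht]
        abel
      rw [e, hG.2, hz, mul_zero]
  have ha' : (a : ℂ) ≠ 0 := by exact_mod_cast ha.ne'
  have hP0 : ∀ l ∈ Lat τ, (phL v l / a) • uu τ v ∈ Lat τ := fun l hl ↦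
    mem_lat τ v _ fun m hm ↦ by
      obtain ⟨k, hk⟩ := h2 _ ⟨l, hl, rfl⟩ _ ⟨m, hm, rfl⟩
      refine ⟨k, ?_⟩
      have e : conj (phL v l / a) * ph v m = conj (phL v l) * phL v m / (a : ℝ) := by
        rw [map_div₀, conj_ofReal, div_mul_eq_mul_div]
        rfl
      rw [e, div_ofReal_im, hk, mul_div_cancel_right₀ _ ha.ne']
  obtain ⟨k, hk⟩ := h3 (κ / a) (by
    rintro _ ⟨l, hl, rfl⟩
    refine ⟨_, hP0 l hl, ?_⟩
    rw [map_smul, hu, smul_eq_mul]
    push_cast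
    ring)
  have hk0 : (0 : ℝ) < k := hk ▸ div_pos hκ0 ha
  obtain ⟨N, rfl⟩ := Int.eq_ofNat_of_zero_le (a := k) (by exact_mod_cast hk0.le)
  rw [Int.cast_natCast] at hk hk0
  have hN0 : 0 < N := by exact_mod_cast hk0
  have hκa : κ = N * a := by rwa [div_eq_iff ha.ne'] at hk
  have hκa' : (κ : ℂ) = N * a := by exact_mod_cast hκa
  let P : V2 →ₗ[ℂ] V2 := ((2 / a : ℂ) • phL v).smulRight (uu τ v) - (N : ℂ) • LinearMap.id
  have hP : ∀ z, P z = (2 / a * phL v z) • uu τ v + ((-N : ℝ) : ℂ) • z := fun z ↦ by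
    simp [P, sub_eq_add_neg]
  refine ⟨P, N, hN0, ?_, ⟨pow_pos hN0 2, fun z hz ↦ ?_, ?_, fun z ↦ ?_, fun z ↦ ?_⟩, ?_⟩
  · have h4 : (N : ℝ) ≤ 369 * n := by
      have h5 : 9 * (41 * n * κ⁻¹) * a * N = 369 * n := by
        rw [hκa]
        field_simp
        ring
      nlinarith
    exact_mod_cast h4
  · rw [hP]
    refine th_BAS.lat_add τ _ ?_ _ ?_
    · have := th_BAS.lat_smul τ 2 _ (hP0 z hz)
      rw [smul_smul] at this
      have e : 2 / (a : ℂ) * phL v z = ((2 : ℤ) : ℂ) * (phL v z / a) := by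
        push_cast
        ring
      rwa [e]
    · simpa using th_BAS.lat_smul τ (-N) z hz
  · simp only [P, map_sub, map_smul, LinearMap.trace_smulRight, LinearMap.trace_id,
      LinearMap.smul_apply, hu, smul_eq_mul, hκa']
    simp
    field_simp
    ring
  · rw [hP, hP, map_add, map_smul, map_smul, hu, hκa', smul_add, smul_smul, smul_smul,
      ← add_assoc, ← add_smul]
    have e : 2 / (a : ℂ) * ((2 / a * phL v z) • ((N : ℂ) * a) + ((-N : ℝ) : ℂ) • phL v z) +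
        ((-N : ℝ) : ℂ) * (2 / a * phL v z) = 0 := by
      simp only [smul_eq_mul]
      push_cast
      field_simp
      ring
    rw [e, zero_smul, zero_add]
    congr 1
    push_cast
    ring
  · rw [hP, Hn_comb hτ, ← hκ, hκa]
    have e1 : normSq (2 / (a : ℂ) * phL v z) = 4 / a ^ 2 * normSq (phL v z) := by
      rw [map_mul, map_div₀, normSq_ofReal]
      norm_num [sq]
    have e2 : (conj (2 / (a : ℂ) * phL v z) * ph v z).re = 2 / a * normSq (phL v z) := by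
      have e3 : conj (2 / (a : ℂ) * phL v z) * ph v z = ((2 / a * normSq (phL v z) : ℝ) : ℂ) := by
        rw [map_mul, map_div₀, conj_ofReal, map_ofNat]
        push_cast
        rw [normSq_eq_conj_mul_self, mul_assoc]
        rfl
      rw [e3, ofReal_re]
    rw [e1, e2]
    push_cast
    field_simp
    ring
  · rw [hP, hvv, mul_zero, zero_smul, zero_add]
    push_cast
    rfl

theorem st_LIN2 : St_LIN2 := by
  intro τ hτ D g z0 v hg h0 hv hz
  obtain ⟨P, N, h1, h2, h3, h4⟩ := st_LIN0 τ hτ (4 * D) _ ((2 : ℂ)⁻¹ • z0) v (mem_Th2.mp hg)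
    (fun h ↦ h0 (funext fun z ↦ by
      have h1 := congrFun h ((2 : ℂ)⁻¹ • z)
      simpa only [smul_inv_smul₀ (two_ne_zero (α := ℂ)), Pi.zero_apply] using h1)) hv fun t ↦ by
    show g ((2 : ℂ) • ((2 : ℂ)⁻¹ • z0 + t • v)) = 0
    rw [smul_add, smul_inv_smul₀ two_ne_zero, smul_smul, hz]
  exact ⟨P, N, h1, by omega, h3, h4⟩

end Pool.Agent.Lib.QM82
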