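import Pool.Agent.Lib.QM82.T_SPAN

/-! Dimension bounds for spaces of theta functions on one and on two copies of an abelian
surface. -/

open Complex Module
open scoped Real

noncomputable section

namespace Pool.Agent.Lib.QM82

open Pool.Agent.Lib.ECM

/-- a theta function of level `n` with vanishing Fourier coefficients on a box is zero -/
theorem Lev.eq_zero {τ : T3} {n : ℕ} (hn : 0 < n) {F : V2 → ℂ} (hF : Lev τ n F)
    (h : ∀ a b : Fin n, co ((a : ℕ), (b : ℕ)) F = 0) : F = 0 := by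
  refine uniq hF.pe fun k ↦ ?_
  have hn0 : (n : ℤ) ≠ 0 := by exact_mod_cast hn.ne'
  have hn1 : (0 : ℤ) < n := by exact_mod_cast hn
  have e : k = (k.1 % n, k.2 % n) + (n : ℤ) • (k.1 / n, k.2 / n) := by
    refine Prod.ext ?_ ?_
    · simp [Int.emod_add_mul_ediv]
    · simp [Int.emod_add_mul_ediv]
  rw [e]
  refine hF.co_zero _ ?_
  have h1 := Int.emod_nonneg k.1 hn0
  have h2 := Int.emod_nonneg k.2 hn0
  have h3 := Int.emod_lt_of_pos k.1 hn1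
  have h4 := Int.emod_lt_of_pos k.2 hn1
  have := h ⟨(k.1 % n).toNat, by omega⟩ ⟨(k.2 % n).toNat, by omega⟩
  simpa only [Int.toNat_of_nonneg h1, Int.toNat_of_nonneg h2] using this

/-- the Fourier coefficients on a box -/
def coM (τ : T3) (n : ℕ) : Th τ n →ₗ[ℂ] (Fin n × Fin n → ℂ) where
  toFun F := fun a ↦ co ((a.1 : ℕ), (a.2 : ℕ)) F
  map_add' F G := funext fun _ ↦ co_add _ F.2.1.continuous G.2.1.continuous
  map_smul' c F := funext fun _ ↦ co_smul _ c F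

theorem coM_inj (τ : T3) {n : ℕ} (hn : 0 < n) : Function.Injective (coM τ n) :=
  (injective_iff_map_eq_zero _).2 fun F hF ↦
    Subtype.ext (Lev.eq_zero hn F.2 fun a b ↦ congrFun hF (a, b))

theorem Th_finite (τ : T3) {n : ℕ} (hn : 0 < n) : Module.Finite ℂ (Th τ n) :=
  Module.Finite.of_injective _ (coM_inj τ hn)

theorem Th_finrank (τ : T3) {n : ℕ} (hn : 0 < n) : finrank ℂ (Th τ n) ≤ n ^ 2 := by
  have h := LinearMap.finrank_le_finrank_of_injective (coM_inj τ hn)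
  simpa [sq] using h

/-- interpolation nodes for a finite dimensional space of functions -/
theorem exists_nodes {X : Type} (n : ℕ) : ∀ V : Submodule ℂ (X → ℂ), Module.Finite ℂ V →
    finrank ℂ V ≤ n → ∃ s : Finset X, s.card ≤ n ∧ ∀ f ∈ V, (∀ x ∈ s, f x = 0) → f = 0 := by
  classical
  induction n with
  | zero =>
    intro V hV h
    refine ⟨∅, le_rfl, fun f hf _ ↦ ?_⟩
    have : V = ⊥ := Submodule.finrank_eq_zero.mp (Nat.le_zero.mp h)
    rwa [this, Submodule.mem_bot] at hf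
  | succ n ih =>
    intro V hV h
    by_cases h0 : ∀ f ∈ V, f = 0
    · exact ⟨∅, Nat.zero_le _, fun f hf _ ↦ h0 f hf⟩
    push Not at h0
    obtain ⟨f, hf, hf0⟩ := h0
    obtain ⟨x, hx⟩ := Function.ne_iff.mp hf0
    have hlt : V ⊓ LinearMap.ker (LinearMap.proj x : (X → ℂ) →ₗ[ℂ] ℂ) < V :=
      lt_of_le_of_ne inf_le_left fun e ↦ hx (by
        have : f ∈ V ⊓ LinearMap.ker (LinearMap.proj x : (X → ℂ) →ₗ[ℂ] ℂ) := by rwa [e]
        exact this.2)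
    have h1 := Submodule.finrank_lt_finrank_of_lt hlt
    obtain ⟨s, hs, hs'⟩ := ih _ (Submodule.finiteDimensional_of_le hlt.le) (by omega)
    refine ⟨insert x s, (Finset.card_insert_le _ _).trans (by omega), fun g hg hg' ↦ ?_⟩
    exact hs' g ⟨hg, hg' x (Finset.mem_insert_self _ _)⟩
      fun y hy ↦ hg' y (Finset.mem_insert_of_mem hy)

/-- functions of two variables whose partial functions lie in finite dimensional spaces -/
theorem finrank_two {X Y : Type} {m n : ℕ} (V : Submodule ℂ (X → ℂ)) (V' : Submodule ℂ (Y → ℂ))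
    (hV : Module.Finite ℂ V) (hV' : Module.Finite ℂ V') (hm : finrank ℂ V ≤ m)
    (hn : finrank ℂ V' ≤ n) (W : Submodule ℂ (X × Y → ℂ))
    (h : ∀ F ∈ W, ∀ y, (fun x ↦ F (x, y)) ∈ V) (h' : ∀ F ∈ W, ∀ x, (fun y ↦ F (x, y)) ∈ V') :
    Module.Finite ℂ W ∧ finrank ℂ W ≤ m * n := by
  obtain ⟨s, hs, hs'⟩ := exists_nodes m V hV hm
  obtain ⟨t, ht, ht'⟩ := exists_nodes n V' hV' hn
  let e : W →ₗ[ℂ] (s × t → ℂ) :=
    { toFun := fun F a ↦ F.1 (a.1, a.2)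
      map_add' := fun _ _ ↦ rfl
      map_smul' := fun _ _ ↦ rfl }
  have he : Function.Injective e := (injective_iff_map_eq_zero _).2 fun F hF ↦ by
    refine Subtype.ext (funext fun p ↦ ?_)
    refine congrFun (hs' _ (h F.1 F.2 p.2) fun x hx ↦ ?_) p.1
    exact congrFun (ht' _ (h' F.1 F.2 x) fun y hy ↦ congrFun hF (⟨x, hx⟩, ⟨y, hy⟩)) p.2
  refine ⟨Module.Finite.of_injective _ he, ?_⟩
  have h1 := LinearMap.finrank_le_finrank_of_injective he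
  simp only [Module.finrank_fintype_fun_eq_card, Fintype.card_prod, Fintype.card_coe] at h1
  exact h1.trans (Nat.mul_le_mul hs ht)

/-- theta functions of degree `D` for twice the lattice -/
def Th2 (τ : T3) (D : ℕ) : Submodule ℂ (V2 → ℂ) :=
  (Th τ (4 * D)).comap (LinearMap.funLeft ℂ ℂ fun z ↦ (2 : ℂ) • z)

theorem mem_Th2 {τ : T3} {D : ℕ} {F : V2 → ℂ} :
    F ∈ Th2 τ D ↔ Lev τ (4 * D) fun z ↦ F ((2 : ℂ) • z) := Iff.rfl

theorem Th2_dim (τ : T3) {D : ℕ} (hD : 0 < D) :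
    Module.Finite ℂ (Th2 τ D) ∧ finrank ℂ (Th2 τ D) ≤ (4 * D) ^ 2 := by
  have h4 : 0 < 4 * D := by omega
  have := Th_finite τ h4
  let e : Th2 τ D →ₗ[ℂ] Th τ (4 * D) :=
    (LinearMap.funLeft ℂ ℂ fun z : V2 ↦ (2 : ℂ) • z).restrict fun _ hF ↦ hF
  have he : Function.Injective e := (injective_iff_map_eq_zero _).2 fun F hF ↦ by
    refine Subtype.ext (funext fun z ↦ ?_)
    have h1 := congrFun (congrArg Subtype.val hF) ((2 : ℂ)⁻¹ • z)
    have h2 : F.1 ((2 : ℂ) • (2 : ℂ)⁻¹ • z) = 0 := h1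
    rwa [smul_inv_smul₀ two_ne_zero] at h2
  exact ⟨Module.Finite.of_injective _ he,
    (LinearMap.finrank_le_finrank_of_injective he).trans (Th_finrank τ h4)⟩

theorem Lev.mul {τ : T3} {m n : ℕ} {F G : V2 → ℂ} (hF : Lev τ m F) (hG : Lev τ n G) :
    Lev τ (m + n) fun z ↦ F z * G z :=
  ⟨hF.1.mul hG.1, fun μ ν z ↦ by
    show F _ * G _ = _
    rw [hF.2, hG.2, mul_mul_mul_comm, ← exp_add]
    congr 2
    push_cast
    ring⟩

theorem lev_const (τ : T3) (c : ℂ) : Lev τ 0 fun _ ↦ c :=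
  ⟨differentiable_const c, fun μ ν z ↦ by simp⟩

theorem Th2_mul {τ : T3} {m n : ℕ} {F G : V2 → ℂ} (hF : F ∈ Th2 τ m) (hG : G ∈ Th2 τ n) :
    (fun z ↦ F z * G z) ∈ Th2 τ (m + n) := by
  rw [mem_Th2, mul_add]
  exact Lev.mul hF hG

theorem Th2_const (τ : T3) (c : ℂ) : (fun _ ↦ c) ∈ Th2 τ 0 := lev_const τ c

theorem Th2_th {τ : T3} (hτ : τ ∈ H2) (m : Ch) : th m τ ∈ Th2 τ 1 := by
  refine ⟨(th_BAS.diff_th m τ hτ).comp (differentiable_id.const_smul (2 : ℂ)), fun μ ν z ↦ ?_⟩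
  show th m τ ((2 : ℂ) • (z + per τ (iv μ) (iv ν))) = _ * th m τ ((2 : ℂ) • z)
  have e : (2 : ℂ) • (z + per τ (iv μ) (iv ν)) =
      (2 : ℂ) • z + per τ (iv ((2 : ℤ) • μ)) (iv ((2 : ℤ) • ν)) := by
    rw [smul_add]
    congr 1
    funext i
    fin_cases i <;> simp [per, iv] <;> ring
  have e1 : 2 * π * I * (dot (ca m) (iv ((2 : ℤ) • μ)) - dot (cb m) (iv ((2 : ℤ) • ν))) =
      (((m.1.val : ℤ) * μ.1 + (m.2.1.val : ℤ) * μ.2 - (m.2.2.1.val : ℤ) * ν.1 -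
        (m.2.2.2.val : ℤ) * ν.2 : ℤ) : ℂ) * (2 * π * I) := by
    simp only [dot, ca, cb, iv, Matrix.cons_val_zero, Matrix.cons_val_one, Prod.smul_fst,
      Prod.smul_snd, smul_eq_mul, Int.cast_add, Int.cast_sub, Int.cast_mul, Int.cast_natCast,
      Int.cast_ofNat]
    ring
  rw [e, th_BAS.th_per, e1, exp_int_mul_two_pi_mul_I, one_mul]
  congr 2
  simp only [Qf, dot, iv, Matrix.cons_val_zero, Matrix.cons_val_one, Prod.smul_fst,
    Prod.smul_snd, smul_eq_mul, Pi.smul_apply]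
  push_cast
  ring

theorem Th2_pow {τ : T3} (hτ : τ ∈ H2) (m : Ch) (k : ℕ) : (fun z ↦ th m τ z ^ k) ∈ Th2 τ k := by
  induction k with
  | zero => simpa using Th2_const τ 1
  | succ k ih => simpa only [pow_succ] using Th2_mul ih (Th2_th hτ m)

theorem Th2_mon {τ : T3} (hτ : τ ∈ H2) (d : Ch → ℕ) (s : Finset Ch) :
    (fun z ↦ ∏ m ∈ s, th m τ z ^ d m) ∈ Th2 τ (∑ m ∈ s, d m) := by
  classical
  induction s using Finset.induction_on with
  | empty => simpa using Th2_const τ 1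
  | insert a s ha ih =>
    simp only [Finset.prod_insert ha, Finset.sum_insert ha]
    exact Th2_mul (Th2_pow hτ a (d a)) ih

/-- the Hilbert bound on the product of two abelian surfaces -/
def St_HILB : Prop :=
  ∀ (τ τ' : T3) (D D' : ℕ), 0 < D → 0 < D' → ∀ W : Submodule ℂ (V2 × V2 → ℂ),
    (∀ F ∈ W, ∀ y, (fun x ↦ F (x, y)) ∈ Th2 τ D) → (∀ F ∈ W, ∀ x, (fun y ↦ F (x, y)) ∈ Th2 τ' D') →
    Module.Finite ℂ W ∧ finrank ℂ W ≤ (4 * D) ^ 2 * (4 * D') ^ 2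

theorem st_HILB : St_HILB := fun τ τ' _ _ hD hD' W h h' ↦
  finrank_two _ _ (Th2_dim τ hD).1 (Th2_dim τ' hD').1 (Th2_dim τ hD).2 (Th2_dim τ' hD').2 W h h'

/-! ### polynomials in the affine coordinates -/

/-- the affine coordinates on the product -/
def xx (τ τ' : T3) (p : V2 × V2) : Ch ⊕ Ch → ℂ :=
  Sum.elim (fun m ↦ th m τ p.1 / th 0 τ p.1) fun m ↦ th m τ' p.2 / th 0 τ' p.2

/-- the domain of the affine coordinates -/
def Uo (τ τ' : T3) : Set (V2 × V2) := {p | th 0 τ p.1 ≠ 0 ∧ th 0 τ' p.2 ≠ 0}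

/-- evaluation of polynomials as functions on the domain of the affine coordinates -/
def evx (τ τ' : T3) : MvPolynomial (Ch ⊕ Ch) ℂ →ₐ[ℂ] (Uo τ τ' → ℂ) :=
  MvPolynomial.aeval fun j p ↦ xx τ τ' p j

theorem evx_apply (τ τ' : T3) (P : MvPolynomial (Ch ⊕ Ch) ℂ) (p : Uo τ τ') :
    evx τ τ' P p = MvPolynomial.eval (xx τ τ' p) P := by
  induction P using MvPolynomial.induction_on with
  | C a => simp [evx]
  | add P Q hP hQ => rw [map_add, map_add, Pi.add_apply, hP, hQ]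
  | mul_X P j hP =>
    rw [map_mul, map_mul, Pi.mul_apply, hP, MvPolynomial.eval_X]
    simp [evx]

/-- bidegree at most `(D, D')` -/
def Bd (D D' : ℕ) (P : MvPolynomial (Ch ⊕ Ch) ℂ) : Prop :=
  ∀ d ∈ P.support, ∑ m, d (Sum.inl m) ≤ D ∧ ∑ m, d (Sum.inr m) ≤ D'

/-- homogenised monomials -/
def hm (τ : T3) (D : ℕ) (d : Ch → ℕ) (z : V2) : ℂ :=
  th 0 τ z ^ (D - ∑ m, d m) * ∏ m, th m τ z ^ d m

theorem hm_mem {τ : T3} (hτ : τ ∈ H2) {D : ℕ} {d : Ch → ℕ} (h : ∑ m, d m ≤ D) :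
    hm τ D d ∈ Th2 τ D := by
  have := Th2_mul (Th2_pow hτ 0 (D - ∑ m, d m)) (Th2_mon hτ d Finset.univ)
  rwa [Nat.sub_add_cancel h] at this

theorem hm_eq {τ : T3} {D : ℕ} {d : Ch → ℕ} (h : ∑ m, d m ≤ D) {z : V2} (hz : th 0 τ z ≠ 0) :
    hm τ D d z = th 0 τ z ^ D * ∏ m, (th m τ z / th 0 τ z) ^ d m := by
  unfold hm
  simp only [div_pow]
  rw [Finset.prod_div_distrib, Finset.prod_pow_eq_pow_sum, pow_sub₀ _ hz h]
  ring

/-- the homogenisation of a polynomial of bidegree at most `(D, D')` is an entire function with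
partial functions in the spaces of theta functions -/
theorem exists_hom {τ τ' : T3} (hτ : τ ∈ H2) (hτ' : τ' ∈ H2) {D D' : ℕ}
    {P : MvPolynomial (Ch ⊕ Ch) ℂ} (hP : Bd D D' P) : ∃ F : V2 × V2 → ℂ,
    (∀ y, (fun x ↦ F (x, y)) ∈ Th2 τ D) ∧ (∀ x, (fun y ↦ F (x, y)) ∈ Th2 τ' D') ∧
    ∀ p ∈ Uo τ τ', F p = th 0 τ p.1 ^ D * th 0 τ' p.2 ^ D' * MvPolynomial.eval (xx τ τ' p) P := by
  refine ⟨fun p ↦ ∑ d ∈ P.support, P.coeff d *
    (hm τ D (fun m ↦ d (Sum.inl m)) p.1 * hm τ' D' (fun m ↦ d (Sum.inr m)) p.2),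
    fun y ↦ ?_, fun x ↦ ?_, fun p hp ↦ ?_⟩
  · have := (Th2 τ D).sum_mem (t := P.support)
      (f := fun d ↦ (P.coeff d * hm τ' D' (fun m ↦ d (Sum.inr m)) y) •
        hm τ D fun m ↦ d (Sum.inl m))
      fun d hd ↦ (Th2 τ D).smul_mem _ (hm_mem hτ (hP d hd).1)
    refine (congrArg (· ∈ Th2 τ D) (funext fun x ↦ ?_)).mp this
    rw [Finset.sum_apply]
    refine Finset.sum_congr rfl fun d _ ↦ ?_
    simp only [Pi.smul_apply, smul_eq_mul]
    ring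
  · have := (Th2 τ' D').sum_mem (t := P.support)
      (f := fun d ↦ (P.coeff d * hm τ D (fun m ↦ d (Sum.inl m)) x) •
        hm τ' D' fun m ↦ d (Sum.inr m))
      fun d hd ↦ (Th2 τ' D').smul_mem _ (hm_mem hτ' (hP d hd).2)
    refine (congrArg (· ∈ Th2 τ' D') (funext fun y ↦ ?_)).mp this
    rw [Finset.sum_apply]
    refine Finset.sum_congr rfl fun d _ ↦ ?_
    simp only [Pi.smul_apply, smul_eq_mul]
    ring
  · rw [MvPolynomial.eval_eq', Finset.mul_sum]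
    refine Finset.sum_congr rfl fun d hd ↦ ?_
    rw [hm_eq (hP d hd).1 hp.1, hm_eq (hP d hd).2 hp.2, Fintype.prod_sum_type]
    simp only [xx, Sum.elim_inl, Sum.elim_inr]
    ring

/-- the Hilbert bound for polynomials in the affine coordinates -/
def St_HILP : Prop :=
  ∀ τ ∈ H2, ∀ τ' ∈ H2, ∀ D D' : ℕ, 0 < D → 0 < D' →
    ∀ M : Submodule ℂ (MvPolynomial (Ch ⊕ Ch) ℂ), (∀ P ∈ M, Bd D D' P) →
      Module.Finite ℂ (M.map (evx τ τ').toLinearMap) ∧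
        finrank ℂ (M.map (evx τ τ').toLinearMap) ≤ (4 * D) ^ 2 * (4 * D') ^ 2

theorem st_HILP : St_HILP := by
  intro τ hτ τ' hτ' D D' hD hD' M hM
  let W : Submodule ℂ (V2 × V2 → ℂ) :=
    { carrier := {F | (∀ y, (fun x ↦ F (x, y)) ∈ Th2 τ D) ∧ ∀ x, (fun y ↦ F (x, y)) ∈ Th2 τ' D'}
      add_mem' := fun hF hG ↦ ⟨fun y ↦ (Th2 τ D).add_mem (hF.1 y) (hG.1 y),
        fun x ↦ (Th2 τ' D').add_mem (hF.2 x) (hG.2 x)⟩
      zero_mem' := ⟨fun _ ↦ (Th2 τ D).zero_mem, fun _ ↦ (Th2 τ' D').zero_mem⟩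
      smul_mem' := fun c _ hF ↦ ⟨fun y ↦ (Th2 τ D).smul_mem c (hF.1 y),
        fun x ↦ (Th2 τ' D').smul_mem c (hF.2 x)⟩ }
  obtain ⟨hW, hW'⟩ := st_HILB τ τ' D D' hD hD' W (fun _ h ↦ h.1) fun _ h ↦ h.2
  let r : (V2 × V2 → ℂ) →ₗ[ℂ] (Uo τ τ' → ℂ) :=
    { toFun := fun F p ↦ (th 0 τ p.1.1 ^ D * th 0 τ' p.1.2 ^ D')⁻¹ * F p
      map_add' := fun _ _ ↦ funext fun _ ↦ mul_add _ _ _
      map_smul' := fun _ _ ↦ funext fun _ ↦ mul_left_comm _ _ _ }
  have hle : M.map (evx τ τ').toLinearMap ≤ W.map r := by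
    rintro _ ⟨P, hP, rfl⟩
    obtain ⟨F, h1, h2, h3⟩ := exists_hom hτ hτ' (hM P hP)
    refine ⟨F, ⟨h1, h2⟩, funext fun p ↦ ?_⟩
    show (th 0 τ p.1.1 ^ D * th 0 τ' p.1.2 ^ D')⁻¹ * F p = evx τ τ' P p
    rw [h3 p p.2, evx_apply, inv_mul_cancel_left₀
      (mul_ne_zero (pow_ne_zero _ p.2.1) (pow_ne_zero _ p.2.2))]
  exact ⟨Submodule.finiteDimensional_of_le hle,
    (Submodule.finrank_mono hle).trans ((Submodule.finrank_map_le r W).trans hW')⟩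

end Pool.Agent.Lib.QM82
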