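import Pool.Agent.Lib.ECM.TH_All

/-! Theta functions of level `n` are combinations of products of `n` translates of Riemann's theta
function. -/

open Complex Set MeasureTheory
open scoped Real

noncomputable section

namespace Pool.Agent.Lib.QM82

open Pool.Agent.Lib.ECM

/-- theta functions of level `n` -/
def Lev (τ : T3) (n : ℕ) (F : V2 → ℂ) : Prop :=
  Differentiable ℂ F ∧ ∀ (μ ν : ℤ × ℤ) (z : V2), F (z + per τ (iv μ) (iv ν)) =
    exp (-π * I * (n * (Qf τ (iv ν) + 2 * dot (iv ν) z))) * F z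

/-- products of `n` translates of the theta function, the sum of the translations being zero -/
def Gs (τ : T3) (n : ℕ) : Set (V2 → ℂ) :=
  {G | ∃ l : List V2, l.length = n ∧ l.sum = 0 ∧ G = fun z ↦ (l.map fun u ↦ th 0 τ (z + u)).prod}

def St_SPAN : Prop :=
  ∀ τ ∈ H2, ∀ n : ℕ, 0 < n → ∀ F : V2 → ℂ, Lev τ n F → F ∈ Submodule.span ℂ (Gs τ n)

/-! ### one variable -/

theorem uniq1 {h : ℝ → ℂ} (hh : Continuous h) (hp : h 0 = h 1)
    (H : ∀ k : ℤ, ∫ t in (0 : ℝ)..1, h t * exp (-(2 * π * I * k * t)) = 0) : h 0 = 0 := by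
  have : Fact ((0 : ℝ) < 1) := ⟨one_pos⟩
  let f : C(AddCircle (1 : ℝ), ℂ) :=
    ⟨AddCircle.liftIco 1 0 h, AddCircle.liftIco_zero_continuous hp hh.continuousOn⟩
  have h0 : ∀ k, fourierCoeff f k = 0 := fun k ↦ by
    have e : fourierCoeff f k = fourierCoeff (AddCircle.liftIco (1 : ℝ) 0 h) k := rfl
    rw [e, fourierCoeff_liftIco_eq, fourierCoeffOn_eq_integral]
    have e2 : ∀ x : ℝ, fourier (-k) (x : AddCircle ((0 : ℝ) + 1 - 0)) • h x =
        h x * exp (-(2 * π * I * k * x)) := fun x ↦ by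
      rw [fourier_coe_apply, smul_eq_mul, mul_comm]
      congr 2
      push_cast
      ring
    simp only [e2]
    rw [zero_add, H, smul_zero]
  have hs : Summable (fourierCoeff f) := by
    rw [show fourierCoeff f = fun _ ↦ 0 from funext h0]
    exact summable_zero
  have h1 := has_pointwise_sum_fourier_series_of_summable hs ((0 : ℝ) : AddCircle (1 : ℝ))
  simp only [h0, zero_smul] at h1
  have h2 : f ((0 : ℝ) : AddCircle (1 : ℝ)) = h 0 :=
    AddCircle.liftIco_coe_apply (by simp)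
  rw [← h2]
  exact h1.unique hasSum_zero

theorem shift1 {h : ℂ → ℂ} (hh : Differentiable ℂ h) (hp : ∀ z, h (z + 1) = h z) (w : ℂ) :
    ∫ t in (0 : ℝ)..1, h (t + w) = ∫ t in (0 : ℝ)..1, h t := by
  have h1 := integral_boundary_rect_eq_zero_of_differentiableOn h 0 (1 + w.im * I)
    hh.differentiableOn
  have e1 : (1 + (w.im : ℂ) * I).re = 1 := by simp
  have e2 : (1 + (w.im : ℂ) * I).im = w.im := by simp
  rw [e1, e2] at h1
  simp only [zero_re, zero_im, ofReal_zero, zero_mul, add_zero, ofReal_one, zero_add] at h1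
  have e3 : ∀ y : ℝ, h (1 + y * I) = h (y * I) := fun y ↦ by rw [add_comm, hp]
  simp only [e3] at h1
  have h2 : ∫ t in (0 : ℝ)..1, h (t + w.im * I) = ∫ t in (0 : ℝ)..1, h t := by
    rw [add_sub_cancel_right] at h1
    exact (sub_eq_zero.mp h1).symm
  have hper : Function.Periodic (fun t : ℝ ↦ h (t + w.im * I)) 1 := fun t ↦ by
    show h (((t + 1 : ℝ) : ℂ) + w.im * I) = h (t + w.im * I)
    rw [← hp (t + w.im * I)]
    congr 1
    push_cast
    ring
  have h3 := hper.intervalIntegral_add_eq w.re 0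
  have h4 := intervalIntegral.integral_comp_add_right (a := 0) (b := 1)
    (fun t : ℝ ↦ h (t + w.im * I)) w.re
  rw [zero_add] at h3 h4
  rw [← h2, ← h3, add_comm w.re 1, ← h4]
  refine intervalIntegral.integral_congr fun t _ ↦ ?_
  show h (t + w) = h (((t + w.re : ℝ) : ℂ) + w.im * I)
  congr 1
  push_cast
  rw [add_assoc, re_add_im]

/-! ### the mean over the real torus -/

def pt (x y : ℂ) : V2 := ![x, y]

theorem pt_cont : Continuous fun p : ℝ × ℝ ↦ pt p.1 p.2 := by
  refine continuous_pi fun i ↦ ?_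
  fin_cases i
  · show Continuous fun p : ℝ × ℝ ↦ (p.1 : ℂ)
    fun_prop
  · show Continuous fun p : ℝ × ℝ ↦ (p.2 : ℂ)
    fun_prop

theorem pt_diff1 (y : ℂ) : Differentiable ℂ fun x ↦ pt x y := by
  refine differentiable_pi.2 fun i ↦ ?_
  fin_cases i
  · exact differentiable_id
  · exact differentiable_const y

theorem pt_diff2 (x : ℂ) : Differentiable ℂ fun y ↦ pt x y := by
  refine differentiable_pi.2 fun i ↦ ?_
  fin_cases i
  · exact differentiable_const x
  · exact differentiable_id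

theorem pt_add (x y : ℂ) (w : V2) : pt x y + w = pt (x + w 0) (y + w 1) := by
  funext i
  fin_cases i <;> rfl

/-- the mean value -/
def mean (F : V2 → ℂ) : ℂ := ∫ x in (0 : ℝ)..1, ∫ y in (0 : ℝ)..1, F (pt x y)

theorem mean_swap {F : V2 → ℂ} (hF : Continuous F) :
    mean F = ∫ y in (0 : ℝ)..1, ∫ x in (0 : ℝ)..1, F (pt x y) := by
  refine intervalIntegral_intervalIntegral_swap ?_
  have hc : Continuous (Function.uncurry fun x y : ℝ ↦ F (pt x y)) := hF.comp pt_cont
  refine (hc.continuousOn.integrableOn_compact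
    ((isCompact_uIcc (a := (0 : ℝ)) (b := 1)).prod (isCompact_uIcc (a := (0 : ℝ)) (b := 1)))).mono_set ?_
  exact prod_mono uIoc_subset_uIcc uIoc_subset_uIcc

theorem inner_cont {F : V2 → ℂ} (hF : Continuous F) :
    Continuous fun x : ℝ ↦ ∫ y in (0 : ℝ)..1, F (pt x y) :=
  intervalIntegral.continuous_parametric_intervalIntegral_of_continuous'
    (f := fun x y : ℝ ↦ F (pt x y)) (hF.comp pt_cont) 0 1

theorem mean_add {F G : V2 → ℂ} (hF : Continuous F) (hG : Continuous G) :
    mean (fun z ↦ F z + G z) = mean F + mean G := by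
  unfold mean
  rw [← intervalIntegral.integral_add ((inner_cont hF).intervalIntegrable _ _)
    ((inner_cont hG).intervalIntegrable _ _)]
  refine intervalIntegral.integral_congr fun x _ ↦ ?_
  exact intervalIntegral.integral_add
    ((hF.comp ((pt_diff2 x).continuous.comp continuous_ofReal)).intervalIntegrable _ _)
    ((hG.comp ((pt_diff2 x).continuous.comp continuous_ofReal)).intervalIntegrable _ _)

theorem mean_mul (c : ℂ) (F : V2 → ℂ) : mean (fun z ↦ c * F z) = c * mean F := by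
  unfold mean
  simp only [intervalIntegral.integral_const_mul]

/-- entire and invariant under the integral translations -/
def Pe (F : V2 → ℂ) : Prop := Differentiable ℂ F ∧ ∀ (μ : ℤ × ℤ) (z : V2), F (z + iv μ) = F z

theorem Pe.p1 {F : V2 → ℂ} (hF : Pe F) (x y : ℂ) : F (pt (x + 1) y) = F (pt x y) := by
  rw [← hF.2 (1, 0) (pt x y), pt_add]
  simp [iv]

theorem Pe.p2 {F : V2 → ℂ} (hF : Pe F) (x y : ℂ) : F (pt x (y + 1)) = F (pt x y) := by
  rw [← hF.2 (0, 1) (pt x y), pt_add]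
  simp [iv]

theorem Pe.shift {F : V2 → ℂ} (hF : Pe F) (w : V2) : Pe fun z ↦ F (z + w) :=
  ⟨hF.1.comp (differentiable_id.add_const w), fun μ z ↦ by
    show F (z + iv μ + w) = F (z + w)
    rw [add_right_comm, hF.2]⟩

theorem mean_shift {F : V2 → ℂ} (hF : Pe F) (w : V2) : mean (fun z ↦ F (z + w)) = mean F := by
  have h1 : mean (fun z ↦ F (z + w)) = mean (fun z ↦ F (z + pt (w 0) 0)) := by
    unfold mean
    refine intervalIntegral.integral_congr fun x _ ↦ ?_
    have := shift1 (h := fun y ↦ F (pt (x + w 0) y)) (hF.1.comp (pt_diff2 _))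
      (fun y ↦ hF.p2 _ y) (w 1)
    simp only [pt_add]
    rw [this]
    simp [pt]
  rw [h1, mean_swap (hF.shift _).1.continuous, mean_swap hF.1.continuous]
  refine intervalIntegral.integral_congr fun y _ ↦ ?_
  have := shift1 (h := fun x ↦ F (pt x y)) (hF.1.comp (pt_diff1 _)) (fun x ↦ hF.p1 x _) (w 0)
  simp only [pt_add]
  rw [← this]
  simp [pt]

/-- the character `exp (2 π i k · z)` -/
def ch (k : ℤ × ℤ) (z : V2) : ℂ := exp (2 * π * I * dot (iv k) z)

theorem ch_ne (k : ℤ × ℤ) (z : V2) : ch k z ≠ 0 := exp_ne_zero _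

theorem ch_add (k : ℤ × ℤ) (z w : V2) : ch k (z + w) = ch k z * ch k w := by
  unfold ch
  rw [← exp_add]
  congr 1
  simp only [dot, Pi.add_apply]
  ring

theorem ch_add' (k l : ℤ × ℤ) (z : V2) : ch (k + l) z = ch k z * ch l z := by
  unfold ch
  rw [← exp_add]
  congr 1
  simp only [dot, iv, Matrix.cons_val_zero, Matrix.cons_val_one, Prod.fst_add, Prod.snd_add]
  push_cast
  ring

theorem ch_zero (z : V2) : ch 0 z = 1 := by
  simp [ch, dot, iv]

theorem ch_int (k μ : ℤ × ℤ) : ch k (iv μ) = 1 := by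
  have e : 2 * π * I * dot (iv k) (iv μ) = ((k.1 * μ.1 + k.2 * μ.2 : ℤ) : ℂ) * (2 * π * I) := by
    simp only [dot, iv, Matrix.cons_val_zero, Matrix.cons_val_one]
    push_cast
    ring
  unfold ch
  rw [e, exp_int_mul_two_pi_mul_I]

theorem ch_diff (k : ℤ × ℤ) : Differentiable ℂ (ch k) := by
  unfold ch dot
  fun_prop

theorem Pe.mul_ch {F : V2 → ℂ} (hF : Pe F) (k : ℤ × ℤ) : Pe fun z ↦ F z * ch k z :=
  ⟨hF.1.mul (ch_diff k), fun μ z ↦ by
    show F (z + iv μ) * ch k (z + iv μ) = F z * ch k z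
    rw [hF.2, ch_add, ch_int, mul_one]⟩

/-- Fourier coefficients -/
def co (k : ℤ × ℤ) (F : V2 → ℂ) : ℂ := mean fun z ↦ F z * ch (-k) z

theorem co_add (k : ℤ × ℤ) {F G : V2 → ℂ} (hF : Continuous F) (hG : Continuous G) :
    co k (F + G) = co k F + co k G := by
  unfold co
  simp only [Pi.add_apply, add_mul]
  exact mean_add (hF.mul (ch_diff _).continuous) (hG.mul (ch_diff _).continuous)

theorem co_smul (k : ℤ × ℤ) (c : ℂ) (F : V2 → ℂ) : co k (c • F) = c * co k F := by
  unfold co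
  rw [← mean_mul]
  simp only [Pi.smul_apply, smul_eq_mul, mul_assoc]

theorem co_sum {ι : Type} (k : ℤ × ℤ) (s : Finset ι) {F : ι → V2 → ℂ}
    (hF : ∀ i, Continuous (F i)) : co k (∑ i ∈ s, F i) = ∑ i ∈ s, co k (F i) := by
  classical
  induction s using Finset.induction_on with
  | empty =>
    have := co_smul k 0 0
    simpa using this
  | insert a s ha ih =>
    have hc : Continuous (∑ i ∈ s, F i) := by
      rw [Finset.sum_fn]
      exact continuous_finsetSum _ fun i _ ↦ hF i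
    rw [Finset.sum_insert ha, Finset.sum_insert ha, co_add k (hF a) hc, ih]

theorem co_shift {F : V2 → ℂ} (hF : Pe F) (k : ℤ × ℤ) (w : V2) :
    co k (fun z ↦ F (z + w)) = ch k w * co k F := by
  unfold co
  rw [← mean_shift (hF.mul_ch (-k)) w, ← mean_mul]
  congr 1
  funext z
  have e : ch k w * ch (-k) w = 1 := by rw [← ch_add', add_neg_cancel, ch_zero]
  rw [ch_add]
  linear_combination (-(F (z + w) * ch (-k) z)) * e

theorem co_ch (F : V2 → ℂ) (k l : ℤ × ℤ) : co k (fun z ↦ F z * ch l z) = co (k - l) F := by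
  unfold co
  congr 1
  funext z
  rw [mul_assoc, ← ch_add']
  congr 2
  abel

theorem uniq0 {F : V2 → ℂ} (hF : Pe F) (H : ∀ k, co k F = 0) : F 0 = 0 := by
  have hc := hF.1.continuous
  have e0 : (0 : V2) = pt ((0 : ℝ) : ℂ) ((0 : ℝ) : ℂ) := by
    funext i
    fin_cases i <;> simp [pt]
  rw [e0]
  refine uniq1 (h := fun y : ℝ ↦ F (pt ((0 : ℝ) : ℂ) y))
    (hc.comp ((pt_diff2 _).continuous.comp continuous_ofReal)) ?_ fun l ↦ ?_
  · have := hF.p2 ((0 : ℝ) : ℂ) ((0 : ℝ) : ℂ)
    simp only [ofReal_zero, zero_add, ofReal_one] at this ⊢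
    exact this.symm
  · have hG : Continuous fun z : V2 ↦ F z * exp (-(2 * π * I * l * z 1)) := by fun_prop
    refine uniq1 (h := fun x : ℝ ↦ ∫ y in (0 : ℝ)..1, F (pt x y) * exp (-(2 * π * I * l * y)))
      (inner_cont hG) ?_ fun k ↦ ?_
    · refine intervalIntegral.integral_congr fun y _ ↦ ?_
      have := hF.p1 ((0 : ℝ) : ℂ) y
      simp only [ofReal_zero, zero_add, ofReal_one] at this ⊢
      rw [this]
    · rw [← H (k, l)]
      unfold co mean
      refine intervalIntegral.integral_congr fun x _ ↦ ?_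
      show (∫ y in (0 : ℝ)..1, F (pt x y) * exp (-(2 * π * I * l * y))) *
        exp (-(2 * π * I * k * x)) = _
      rw [← intervalIntegral.integral_mul_const]
      refine intervalIntegral.integral_congr fun y _ ↦ ?_
      show F (pt x y) * exp (-(2 * π * I * l * y)) * exp (-(2 * π * I * k * x)) =
        F (pt x y) * ch (-(k, l)) (pt x y)
      rw [mul_assoc, ← exp_add]
      unfold ch
      congr 2
      simp only [dot, iv, pt, Matrix.cons_val_zero, Matrix.cons_val_one, Prod.fst_neg, Prod.snd_neg]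
      push_cast
      ring

theorem uniq {F : V2 → ℂ} (hF : Pe F) (H : ∀ k, co k F = 0) : F = 0 := by
  funext w
  have := uniq0 (hF.shift w) fun k ↦ by rw [co_shift hF, H, mul_zero]
  simpa using this

/-! ### level `n` -/

theorem Lev.pe {τ : T3} {n : ℕ} {F : V2 → ℂ} (hF : Lev τ n F) : Pe F := by
  refine ⟨hF.1, fun μ z ↦ ?_⟩
  have h := hF.2 μ 0 z
  have e : per τ (iv μ) (iv 0) = iv μ := by
    funext i
    fin_cases i <;> simp [per, iv]
  rw [e] at h
  rw [h]
  simp [Qf, dot, iv]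

/-- the theta functions of level `n` as a subspace -/
def Th (τ : T3) (n : ℕ) : Submodule ℂ (V2 → ℂ) where
  carrier := {F | Lev τ n F}
  add_mem' := fun {F G} hF hG ↦ ⟨hF.1.add hG.1, fun μ ν z ↦ by
    simp only [Pi.add_apply]
    rw [hF.2, hG.2]
    ring⟩
  zero_mem' := ⟨differentiable_const 0, fun μ ν z ↦ by simp⟩
  smul_mem' := fun c F hF ↦ ⟨hF.1.const_smul c, fun μ ν z ↦ by
    simp only [Pi.smul_apply, smul_eq_mul]
    rw [hF.2]
    ring⟩

theorem Lev.co_zero {τ : T3} {n : ℕ} {F : V2 → ℂ} (hF : Lev τ n F) {k : ℤ × ℤ} (ν : ℤ × ℤ)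
    (h : co k F = 0) : co (k + (n : ℤ) • ν) F = 0 := by
  have h1 := co_shift hF.pe k (per τ (iv 0) (iv ν))
  rw [h, mul_zero] at h1
  have e : (fun z ↦ F (z + per τ (iv 0) (iv ν))) =
      exp (-π * I * (n * Qf τ (iv ν))) • fun z ↦ F z * ch (-((n : ℤ) • ν)) z := by
    funext z
    rw [hF.2]
    simp only [Pi.smul_apply, smul_eq_mul]
    unfold ch
    rw [mul_comm (F z), ← mul_assoc (exp _), ← exp_add]
    congr 2
    simp only [dot, iv, Matrix.cons_val_zero, Matrix.cons_val_one, Prod.fst_neg, Prod.snd_neg,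
      Prod.smul_fst, Prod.smul_snd, smul_eq_mul]
    push_cast
    ring
  rw [e, co_smul, co_ch, sub_neg_eq_add] at h1
  exact (mul_eq_zero.mp h1).resolve_left (exp_ne_zero _)

theorem th0_per {τ : T3} (μ ν : ℤ × ℤ) (z : V2) : th 0 τ (z + per τ (iv μ) (iv ν)) =
    exp (-π * I * (Qf τ (iv ν) + 2 * dot (iv ν) z)) * th 0 τ z := by
  rw [th_BAS.th_per]
  have e : dot (ca 0) (iv μ) - dot (cb 0) (iv ν) = 0 := by simp [dot, ca, cb]
  rw [e, mul_zero, exp_zero, one_mul]

theorem prod_diff {τ : T3} (hτ : τ ∈ H2) (l : List V2) :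
    Differentiable ℂ fun z ↦ (l.map fun u ↦ th 0 τ (z + u)).prod := by
  induction l with
  | nil => simp
  | cons u l ih =>
    simp only [List.map_cons, List.prod_cons]
    exact ((th_BAS.diff_th 0 τ hτ).comp (differentiable_id.add_const u)).mul ih

theorem prod_per (τ : T3) (μ ν : ℤ × ℤ) (z : V2) (l : List V2) :
    (l.map fun u ↦ th 0 τ (z + per τ (iv μ) (iv ν) + u)).prod =
      exp (-π * I * (l.length * (Qf τ (iv ν) + 2 * dot (iv ν) z) + 2 * dot (iv ν) l.sum)) *
        (l.map fun u ↦ th 0 τ (z + u)).prod := by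
  induction l with
  | nil => simp [dot]
  | cons u l ih =>
    simp only [List.map_cons, List.prod_cons, List.length_cons, List.sum_cons]
    rw [ih, add_right_comm, th0_per, mul_mul_mul_comm, ← exp_add]
    congr 2
    simp only [dot, Pi.add_apply]
    push_cast
    ring

theorem span_le {τ : T3} (hτ : τ ∈ H2) (n : ℕ) : Submodule.span ℂ (Gs τ n) ≤ Th τ n := by
  refine Submodule.span_le.2 ?_
  rintro G ⟨l, hl, hs, rfl⟩
  refine ⟨prod_diff hτ l, fun μ ν z ↦ ?_⟩
  show (l.map fun u ↦ th 0 τ (z + per τ (iv μ) (iv ν) + u)).prod = _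
  rw [prod_per, hl, hs]
  simp [dot]

/-- the `n`-division point -/
def dv (τ : T3) (n : ℕ) (μ ν : ℤ × ℤ) : V2 := (n : ℂ)⁻¹ • per τ (iv μ) (iv ν)

/-- the operators of the Heisenberg group -/
def Hs (τ : T3) (n : ℕ) (μ ν : ℤ × ℤ) : (V2 → ℂ) →ₗ[ℂ] (V2 → ℂ) where
  toFun G := fun z ↦ G (z + dv τ n μ ν) * ch ν z
  map_add' F G := by
    funext z
    simp only [Pi.add_apply, add_mul]
  map_smul' c F := by
    funext z
    simp only [Pi.smul_apply, smul_eq_mul, RingHom.id_apply, mul_assoc]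

theorem sum_shift (w : V2) (l : List V2) :
    (l.map fun u ↦ w + u).sum = (l.length : ℂ) • w + l.sum := by
  induction l with
  | nil => simp
  | cons u l ih =>
    simp only [List.map_cons, List.sum_cons, List.length_cons, ih]
    push_cast
    rw [add_smul, one_smul]
    abel

theorem Hs_mem (τ : T3) {n : ℕ} (hn : 0 < n) (μ ν : ℤ × ℤ) {G : V2 → ℂ}
    (hG : G ∈ Submodule.span ℂ (Gs τ n)) : Hs τ n μ ν G ∈ Submodule.span ℂ (Gs τ n) := by
  have h : Submodule.span ℂ (Gs τ n) ≤ (Submodule.span ℂ (Gs τ n)).comap (Hs τ n μ ν) := by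
    refine Submodule.span_le.2 ?_
    rintro G ⟨l, hl, hs, rfl⟩
    obtain _ | ⟨u, l⟩ := l
    · simp at hl
      omega
    set w := dv τ n μ ν with hw
    set p := per τ (iv μ) (iv ν) with hp
    have hnw : (n : ℂ) • w = p := by
      rw [hw, dv, smul_smul, mul_inv_cancel₀ (by exact_mod_cast hn.ne'), one_smul]
    have hmem : (fun z ↦ (((w + u - p) :: l.map fun u ↦ w + u).map
        fun u ↦ th 0 τ (z + u)).prod) ∈ Gs τ n := by
      refine ⟨_, by simpa using hl, ?_, rfl⟩
      rw [List.sum_cons, sum_shift, ← hnw, ← hl]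
      rw [List.sum_cons] at hs
      simp only [List.length_cons]
      push_cast
      rw [add_smul, one_smul]
      linear_combination (exp := 1) hs
    have e : Hs τ n μ ν (fun z ↦ ((u :: l).map fun u ↦ th 0 τ (z + u)).prod) =
        exp (-π * I * (Qf τ (iv ν) + 2 * dot (iv ν) (w + u - p))) •
          fun z ↦ (((w + u - p) :: l.map fun u ↦ w + u).map fun u ↦ th 0 τ (z + u)).prod := by
      funext z
      show ((u :: l).map fun u ↦ th 0 τ (z + w + u)).prod * ch ν z = _
      simp only [Pi.smul_apply, smul_eq_mul, List.map_cons, List.prod_cons, List.map_map]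
      have e1 : z + w + u = (z + (w + u - p)) + p := by abel
      have e2 : (fun u ↦ th 0 τ (z + w + u)) = (fun u ↦ th 0 τ (z + u)) ∘ fun u ↦ w + u := by
        funext u
        simp only [Function.comp_apply, add_assoc]
      rw [e1, hp, th0_per, e2, ← hp]
      have e3 : exp (-π * I * (Qf τ (iv ν) + 2 * dot (iv ν) (z + (w + u - p)))) * ch ν z =
          exp (-π * I * (Qf τ (iv ν) + 2 * dot (iv ν) (w + u - p))) := by
        unfold ch
        rw [← exp_add]
        congr 1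
        simp only [dot, Pi.add_apply]
        ring
      rw [← e3]
      ring
    refine Submodule.mem_comap.2 ?_
    rw [e]
    exact Submodule.smul_mem _ _ (Submodule.subset_span hmem)
  exact h hG

theorem co_Hs (τ : T3) (n : ℕ) (μ ν k : ℤ × ℤ) {G : V2 → ℂ} (hG : Pe G) :
    co k (Hs τ n μ ν G) = ch (k - ν) (dv τ n μ ν) * co (k - ν) G := by
  rw [← co_shift hG, ← co_ch]
  rfl

theorem geom {n : ℕ} (hn : 0 < n) (m : ℤ) (hm : ¬ (n : ℤ) ∣ m) :
    ∑ a ∈ Finset.range n, exp (2 * π * I * m / n) ^ a = 0 := by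
  have hn' : (n : ℂ) ≠ 0 := by exact_mod_cast hn.ne'
  have h1 : exp (2 * π * I * m / n) ^ n = 1 := by
    rw [← exp_nat_mul, ← exp_int_mul_two_pi_mul_I m]
    congr 1
    field_simp
  have h2 : exp (2 * π * I * m / n) ≠ 1 := by
    intro h
    obtain ⟨j, hj⟩ := exp_eq_one_iff.mp h
    refine hm ⟨j, ?_⟩
    have h3 : (2 * π * I) * (m : ℂ) = (2 * π * I) * (n * j) := by
      rw [div_eq_iff hn'] at hj
      linear_combination hj
    exact_mod_cast mul_left_cancel₀ two_pi_I_ne_zero h3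
  rw [geom_sum_eq h2, h1, sub_self, zero_div]

theorem ch_dv (τ : T3) (n : ℕ) (k : ℤ × ℤ) (a b : ℕ) :
    ch k (dv τ n (a, b) 0) = exp (2 * π * I * k.1 / n) ^ a * exp (2 * π * I * k.2 / n) ^ b := by
  unfold ch
  rw [← exp_nat_mul, ← exp_nat_mul, ← exp_add]
  congr 1
  simp only [dot, dv, iv, per, Pi.smul_apply, smul_eq_mul, Matrix.cons_val_zero,
    Matrix.cons_val_one, Prod.fst_zero, Prod.snd_zero]
  push_cast
  ring

theorem exists_delta {τ : T3} (hτ : τ ∈ H2) {n : ℕ} (hn : 0 < n) (c : ℤ × ℤ) :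
    ∃ G ∈ Submodule.span ℂ (Gs τ n), co c G = 1 ∧
      ∀ k : ℤ × ℤ, ¬ ((n : ℤ) ∣ (k - c).1 ∧ (n : ℤ) ∣ (k - c).2) → co k G = 0 := by
  have hpe : ∀ G ∈ Submodule.span ℂ (Gs τ n), Pe G := fun G hG ↦ Lev.pe (span_le hτ n hG)
  obtain ⟨G0, hG0, k0, hk0⟩ : ∃ G ∈ Submodule.span ℂ (Gs τ n), ∃ k, co k G ≠ 0 := by
    have hm : (fun z ↦ ((List.replicate n (0 : V2)).map fun u ↦ th 0 τ (z + u)).prod) ∈
        Submodule.span ℂ (Gs τ n) := Submodule.subset_span ⟨_, by simp, by simp, rfl⟩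
    refine ⟨_, hm, ?_⟩
    by_contra hc
    push Not at hc
    obtain ⟨z, hz⟩ := XINJ.ne_somewhere th_BAS th_NORM hτ 0
    have := congrFun (uniq (hpe _ hm) hc) z
    simp at this
    exact hz this.1
  -- move the nonzero coefficient to `c`
  have hG1 := Hs_mem τ hn 0 (c - k0) hG0
  have hc1 : co c (Hs τ n 0 (c - k0) G0) ≠ 0 := by
    rw [co_Hs τ n _ _ _ (hpe _ hG0), sub_sub_cancel]
    exact mul_ne_zero (ch_ne _ _) hk0
  set G1 := Hs τ n 0 (c - k0) G0
  -- average
  let A : ℕ × ℕ → V2 → ℂ := fun a ↦ ch (-c) (dv τ n (a.1, a.2) 0) • Hs τ n (a.1, a.2) 0 G1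
  have hA : ∀ a, A a ∈ Submodule.span ℂ (Gs τ n) := fun a ↦
    Submodule.smul_mem _ _ (Hs_mem τ hn _ _ hG1)
  have hco : ∀ k, co k (∑ a ∈ Finset.range n ×ˢ Finset.range n, A a) =
      (∑ a ∈ Finset.range n, exp (2 * π * I * (k - c).1 / n) ^ a) *
        (∑ b ∈ Finset.range n, exp (2 * π * I * (k - c).2 / n) ^ b) * co k G1 := fun k ↦ by
    rw [co_sum k _ fun a ↦ (hpe _ (hA a)).1.continuous, Finset.sum_mul_sum, ← Finset.sum_product',
      Finset.sum_mul]
    refine Finset.sum_congr rfl fun a _ ↦ ?_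
    rw [co_smul, co_Hs τ n _ _ _ (hpe _ hG1), sub_zero, ← mul_assoc, ← ch_add', ← ch_dv τ,
      neg_add_eq_sub]
  have hn' : (n : ℂ) ≠ 0 := by exact_mod_cast hn.ne'
  refine ⟨((n : ℂ) * n * co c G1)⁻¹ • ∑ a ∈ Finset.range n ×ˢ Finset.range n, A a,
    Submodule.smul_mem _ _ (Submodule.sum_mem _ fun a _ ↦ hA a), ?_, fun k hk ↦ ?_⟩
  · rw [co_smul, hco, sub_self]
    simp only [Prod.fst_zero, Prod.snd_zero, Int.cast_zero, mul_zero, zero_div, exp_zero, one_pow,
      Finset.sum_const, Finset.card_range, nsmul_eq_mul, mul_one]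
    exact inv_mul_cancel₀ (mul_ne_zero (mul_ne_zero hn' hn') hc1)
  · rw [co_smul, hco]
    rcases not_and_or.mp hk with h | h
    · rw [geom hn _ h, zero_mul, zero_mul, mul_zero]
    · rw [geom hn _ h, mul_zero, zero_mul, mul_zero]

theorem st_SPAN : St_SPAN := by
  intro τ hτ n hn F hF
  choose G hG h1 h0 using exists_delta hτ hn
  have hpe : ∀ G ∈ Submodule.span ℂ (Gs τ n), Pe G := fun G hG ↦ Lev.pe (span_le hτ n hG)
  let S : Finset (ℤ × ℤ) := Finset.Ico (0 : ℤ) n ×ˢ Finset.Ico (0 : ℤ) n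
  have hS : ∑ c ∈ S, co c F • G c ∈ Submodule.span ℂ (Gs τ n) :=
    Submodule.sum_mem _ fun c _ ↦ Submodule.smul_mem _ _ (hG c)
  have hD : Lev τ n (F + (-1 : ℂ) • ∑ c ∈ S, co c F • G c) :=
    (Th τ n).add_mem hF ((Th τ n).smul_mem _ (span_le hτ n hS))
  have hz : ∀ c ∈ S, co c (F + (-1 : ℂ) • ∑ c ∈ S, co c F • G c) = 0 := fun c hc ↦ by
    rw [co_add c hF.1.continuous (hpe _ (Submodule.smul_mem _ _ hS)).1.continuous, co_smul,
      co_sum c S fun c ↦ (hpe _ (Submodule.smul_mem _ _ (hG c))).1.continuous,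
      Finset.sum_eq_single_of_mem c hc, co_smul, h1]
    · ring
    · intro b hb hbc
      rw [co_smul, h0 b c, mul_zero]
      rintro ⟨⟨p, hp⟩, ⟨q, hq⟩⟩
      simp only [S, Finset.mem_product, Finset.mem_Ico] at hb hc
      simp only [Prod.fst_sub, Prod.snd_sub] at hp hq
      have hp0 : p = 0 := by
        by_contra h
        rcases lt_or_gt_of_ne h with h | h <;> nlinarith
      have hq0 : q = 0 := by
        by_contra h
        rcases lt_or_gt_of_ne h with h | h <;> nlinarith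
      rw [hp0, mul_zero] at hp
      rw [hq0, mul_zero] at hq
      exact hbc (Prod.ext (by omega) (by omega))
  have hall := uniq hD.pe fun k ↦ by
    have hn0 : (n : ℤ) ≠ 0 := by exact_mod_cast hn.ne'
    have hn1 : (0 : ℤ) < n := by exact_mod_cast hn
    have e : k = (k.1 % n, k.2 % n) + (n : ℤ) • (k.1 / n, k.2 / n) := by
      refine Prod.ext ?_ ?_
      · simp [Int.emod_add_mul_ediv]
      · simp [Int.emod_add_mul_ediv]
    rw [e]
    refine hD.co_zero _ (hz _ ?_)
    simp only [S, Finset.mem_product, Finset.mem_Ico]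
    exact ⟨⟨Int.emod_nonneg _ hn0, Int.emod_lt_of_pos _ hn1⟩,
      Int.emod_nonneg _ hn0, Int.emod_lt_of_pos _ hn1⟩
  have e : F = ∑ c ∈ S, co c F • G c := by
    rw [neg_one_smul, ← sub_eq_add_neg, sub_eq_zero] at hall
    exact hall
  rw [e]
  exact hS

end Pool.Agent.Lib.QM82
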